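import Pool.Agent.Helper23.MT.Final
import Pool.Agent.Helper5.MT.LIFT3
import Pool.Agent.Helper93.MT.LIFT7
import Pool.Agent.Helper79.MT.TRANS
import Pool.Agent.Helper87.MT.TREE

set_option autoImplicit false

namespace Pool.Agent.Results.MP_9d5c58_nt.EveryClass

/-- The map of the problem. -/
def T (x : ℤ) : ℤ :=
  if x % 3 = 0 then 2 * x else if x % 3 = 1 then (7 * x + 2) / 3 else (x - 2) / 3

/-- The trajectories of x and y merge. -/
def Merges (x y : ℤ) : Prop := ∃ j k : ℕ, T^[j] x = T^[k] y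

theorem T_eq : T = Pool.Agent.Helper23.MT.T := rfl

/-- Let the trajectory of x₀ ≠ -1 contain no multiple of 3. A residue class s mod M contains an
integer whose trajectory merges with that of x₀ if and only if s ≡ x₀ mod 2 in case M is even and
T^k(s) is not divisible by 3 for every k with 3^(k+1) dividing M; and in this case the number of
such integers of absolute value at most X is at least c * X^(1/13) for all large X. -/
theorem result (x₀ : ℤ) (hx₀ : ∀ k : ℕ, ¬ (3 : ℤ) ∣ T^[k] x₀) (hne : x₀ ≠ -1)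
    (M : ℕ) (hM : 0 < M) (s : ℤ) :
    ((∃ x : ℤ, (M : ℤ) ∣ x - s ∧ Merges x x₀) ↔
      ((2 ∣ M → (2 : ℤ) ∣ s - x₀) ∧ ∀ k : ℕ, 3 ^ (k + 1) ∣ M → ¬ (3 : ℤ) ∣ T^[k] s)) ∧
    ((∃ x : ℤ, (M : ℤ) ∣ x - s ∧ Merges x x₀) →
      ∃ c : ℝ, 0 < c ∧ ∃ X₀ : ℕ, ∀ X : ℕ, X₀ ≤ X →
        c * (X : ℝ) ^ ((1 : ℝ) / 13) ≤
          (Set.ncard {x : ℤ | |x| ≤ (X : ℤ) ∧ (M : ℤ) ∣ x - s ∧ Merges x x₀} : ℝ)) := by
  simp only [Merges, T_eq] at hx₀ ⊢
  exact Pool.Agent.Helper23.MT.every_class Pool.Agent.Helper5.MT.gLIFT3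
    Pool.Agent.Helper93.MT.gLIFT7 Pool.Agent.Helper79.MT.gTRANS Pool.Agent.Helper87.MT.gTREE
    x₀ hx₀ hne M hM s

end Pool.Agent.Results.MP_9d5c58_nt.EveryClass
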