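import Pool.Agent.Helper42.TT.Th2
import Pool.Agent.Helper54.Ru.M1int
import Pool.Agent.Helper92.Ru.AsmC
import Pool.Agent.Helper31.Rg.MESH

/-!
# MP_9d5c58_nt: trajectories avoiding the multiples of 3 whose word has few periodic pieces

If the first `K` steps of the trajectory of `x` avoid the multiples of `3` and the word of residues
mod `3` can be cut at at most `m` points in pieces with periods `≤ P ≤ η K`, then
`|x| > 3 ^ ((1 - ε) K)`, or the trajectory runs into a cycle of length `≤ P`.  Consequences for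
other cycles and for unbounded trajectories.  The proof uses the `p`-adic Subspace theorem for
vectors `C_i 7 ^ (a_i) 3 ^ (b_i)` with moving integers `C_i`.
-/

set_option autoImplicit false

namespace Pool.Agent.Results.MP_9d5c58_nt.FewBlocks

/-- The map of the problem. -/
def T (x : ℤ) : ℤ :=
  if x % 3 = 0 then 2 * x else if x % 3 = 1 then (7 * x + 2) / 3 else (x - 2) / 3

/-- None of `x, T x, ..., T^(K-1) x` is divisible by `3`, and the word of their residues mod `3` can
be cut at at most `m` points such that every piece (every factor `[a, b)` without a cutting point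
strictly inside) has a period `≤ P`. -/
def FewPieces (m : ℕ) (P : ℝ) (x : ℤ) (K : ℕ) : Prop :=
  (∀ t < K, ¬ (3 : ℤ) ∣ T^[t] x) ∧
    ∃ s : Finset ℕ, s.card ≤ m ∧ ∀ a b : ℕ, a < b → b ≤ K → (∀ c ∈ s, ¬ (a < c ∧ c < b)) →
      ∃ p : ℕ, 1 ≤ p ∧ (p : ℝ) ≤ P ∧ ∀ t, a ≤ t → t + p < b → T^[t + p] x % 3 = T^[t] x % 3

theorem subY : Pool.Agent.Helper17.Rg.SubY :=
  Pool.Agent.Helper31.Rg.subY
    (Pool.Agent.Helper92.Ru.sstInt' Pool.Agent.Helper54.Ru.m1int Pool.Agent.Helper92.Ru.vanish')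

/-- (1) Words of length `K` with few periodic pieces occur only for `|x| > 3 ^ ((1 - ε) K)` and on
the way to a short cycle. (2) Only finitely many points of cycles have such a word over a period.
(3) For a survivor which is not eventually periodic, the number of branch changes up to time `n`
grows faster than `C log n` for every `C`. -/
theorem result :
    (∀ (m : ℕ) (ε : ℝ), 0 < ε → ∃ η : ℝ, 0 < η ∧
      ∀ (x : ℤ) (K : ℕ) (P : ℝ), 1 ≤ K → P ≤ η * K → FewPieces m P x K →
        (3 : ℝ) ^ ((1 - ε) * K) < |(x : ℝ)| ∨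
          ∃ t p : ℕ, t < K ∧ 1 ≤ p ∧ (p : ℝ) ≤ P ∧ T^[t + p] x = T^[t] x) ∧
    (∀ m : ℕ, ∃ η : ℝ, 0 < η ∧
      {x : ℤ | x ∈ Function.periodicPts T ∧
        FewPieces m (η * Function.minimalPeriod T x) x (Function.minimalPeriod T x)}.Finite) ∧
    (∀ x : ℤ, (∀ k : ℕ, ¬ (3 : ℤ) ∣ T^[k] x) → (∀ i j : ℕ, i < j → T^[i] x ≠ T^[j] x) →
      ∀ C : ℝ, ∃ n0 : ℕ, ∀ n : ℕ, n0 ≤ n → C * Real.log n ≤
        (((Finset.range n).filter (fun t => T^[t + 1] x % 3 ≠ T^[t] x % 3)).card : ℝ)) := by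
  refine ⟨fun m ε hε => ?_, fun m => ?_, fun x h3 hnp C => ?_⟩
  · obtain ⟨η, hη, _, h⟩ := Pool.Agent.Helper42.TT.th1 subY m ε hε
    exact ⟨η, hη, h⟩
  · exact Pool.Agent.Helper42.TT.th2 subY m
  · exact Pool.Agent.Helper42.TT.th3 subY x h3 hnp C

end Pool.Agent.Results.MP_9d5c58_nt.FewBlocks
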