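import Pool.Agent.Helper23.MT.CountFinal
import Pool.Agent.Helper56.MT.KRAFT
import Pool.Agent.Helper49.MT.COUNT
import Pool.Agent.Helper59.MT.SIZENUM
import Pool.Agent.Helper2.MT.MAIN

set_option autoImplicit false

namespace Pool.Agent.Results.MP_9d5c58_nt.SurvivorCount

/-- The map of the problem. -/
def T (x : ℤ) : ℤ :=
  if x % 3 = 0 then 2 * x else if x % 3 = 1 then (7 * x + 2) / 3 else (x - 2) / 3

theorem T_eq : T = Pool.Agent.Helper23.MT.T := rfl

/-- The number of integers of absolute value at most X whose trajectory contains no multiple of 3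
is at most C * X^0.629. -/
theorem result :
    ∃ C : ℝ, 0 < C ∧ ∀ X : ℕ, 1 ≤ X →
      (Set.ncard {x : ℤ | |x| ≤ (X : ℤ) ∧ ∀ k : ℕ, ¬ (3 : ℤ) ∣ T^[k] x} : ℝ) ≤
        C * (X : ℝ) ^ ((629 : ℝ) / 1000) := by
  rw [T_eq]
  exact Pool.Agent.Helper23.MT.survivor_count
    (Pool.Agent.Helper2.MT.gMAIN Pool.Agent.Helper56.MT.gKRAFT Pool.Agent.Helper49.MT.gCOUNT
      Pool.Agent.Helper59.MT.gSIZE Pool.Agent.Helper59.MT.gNUM)

end Pool.Agent.Results.MP_9d5c58_nt.SurvivorCount
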